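import Pool.Agent.P.MP_91e65d_lc.Ws.Local

set_option autoImplicit false

namespace Pool.Agent.P.MP_91e65d_lc.Gr

open Set Pool.Agent.P.MP_91e65d_lc.Tr
open scoped ENNReal

variable {X : Type*}

open Classical in
/-- The total weight of the points with a property. -/
noncomputable def ms (W : X → ℝ≥0∞) (P : X → Prop) : ℝ≥0∞ := ∑' x, if P x then W x else 0

section ms

variable {W W' : X → ℝ≥0∞} {P Q : X → Prop}

lemma ms_le {c : ℝ≥0∞} (h : ∀ x, P x → Q x ∧ W x ≤ c * W' x) : ms W P ≤ c * ms W' Q := by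
  rw [ms, ms, ← ENNReal.tsum_mul_left]
  refine ENNReal.tsum_le_tsum fun x => ?_
  split_ifs with h1 h2
  exacts [(h x h1).2, absurd (h x h1).1 h2, zero_le, zero_le]

lemma ms_mono (h : ∀ x, P x → Q x) : ms W P ≤ ms W Q :=
  (ms_le (c := 1) fun x hx => ⟨h x hx, (one_mul _).ge⟩).trans_eq (one_mul _)

lemma ms_mul (c : ℝ≥0∞) : ms (fun x => c * W x) P = c * ms W P := by
  rw [ms, ms, ← ENNReal.tsum_mul_left]
  exact tsum_congr fun x => by split_ifs <;> simp

lemma ms_split (Q : X → Prop) :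
    ms W P = ms W (fun x => P x ∧ Q x) + ms W fun x => P x ∧ ¬ Q x := by
  rw [ms, ms, ms, ← ENNReal.tsum_add]
  exact tsum_congr fun x => by by_cases h : P x <;> by_cases h' : Q x <;> simp [h, h']

lemma ms_cover {ι : Type*} {T : ι → X → Prop} (h : ∀ x, P x → ∃ i, T i x) :
    ms W P ≤ ∑' i, ms W (T i) := by
  simp only [ms]
  rw [ENNReal.tsum_comm]
  refine ENNReal.tsum_le_tsum fun x => ?_
  split_ifs with h1
  · obtain ⟨i, hi⟩ := h x h1
    exact le_trans (by rw [if_pos hi]) (ENNReal.le_tsum i)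
  · exact zero_le

lemma ms_pack {ι : Type*} {T : ι → X → Prop} {M : ℕ} (h : ∀ i x, T i x → P x)
    (hM : ∀ x, {i | T i x}.encard ≤ M) : ∑' i, ms W (T i) ≤ M * ms W P := by
  classical
  simp only [ms]
  rw [ENNReal.tsum_comm, ← ENNReal.tsum_mul_left]
  refine ENNReal.tsum_le_tsum fun x => ?_
  have e : ∀ i, (@ite _ (T i x) (Classical.propDecidable _) (W x) 0) =
      {i | T i x}.indicator (fun _ => W x) i := fun i => by
    by_cases h : T i x <;> simp [h]
  split_ifs with h1
  · rw [tsum_congr e, ← tsum_subtype, ENNReal.tsum_set_const]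
    gcongr
    exact_mod_cast hM x
  · simp [fun i => mt (h i x) h1]

end ms

lemma two_mul_pow_le {N : ℕ} (hN : 0 < N) : 2 * N ^ N ≤ (N + 1) ^ N := by
  have := pow_add_mul_le_add_pow (a := N) (b := 1) N.zero_le (Nat.zero_le _) N
  rwa [Nat.cast_id, mul_one, ← pow_succ', Nat.sub_add_cancel hN, ← two_mul] at this

/-- Ball carving: some shell is light. -/
lemma exists_shell {W : X → ℝ≥0∞} {I : X → Prop} {B : ℕ → X → Prop} {N v M : ℕ} (hN : 0 < N)
    (hB : ∀ i x, B i x → B (i + 1) x) (hv : M + 1 < 2 ^ v) : ∃ i < N * v,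
    M * N * ms W (fun x => (I x ∧ B (i + 1) x) ∧ ¬ B i x) ≤
      M * ms W (fun x => I x ∧ B i x) + ms W (B (N * v)) := by
  by_contra hc
  push Not at hc
  set w := ms W (B (N * v))
  have v0 : 0 < N * v := Nat.mul_pos hN (Nat.pos_of_ne_zero fun h => by simp [h] at hv)
  have key : ∀ i ≤ N * v, (N + 1 : ℝ≥0∞) ^ i * w ≤ N ^ i * (M * ms W (fun x => I x ∧ B i x) + w) :=
    fun i hi => by
      induction i with
      | zero => simp
      | succ i ih =>
        have h1 := ms_split (W := W) (P := fun x => I x ∧ B (i + 1) x) (B i)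
        have h2 : ms W (fun x => I x ∧ B i x) ≤ ms W fun x => (I x ∧ B (i + 1) x) ∧ B i x :=
          ms_mono fun x h => ⟨⟨h.1, hB _ _ h.2⟩, h.2⟩
        have h3 := (hc i hi).le
        calc _ = (N + 1) * ((N + 1 : ℝ≥0∞) ^ i * w) := by ring
          _ ≤ (N + 1) * (N ^ i * (M * ms W (fun x => I x ∧ B i x) + w)) :=
            mul_le_mul_right (ih (by omega)) _
          _ = N ^ i * (N * (M * ms W (fun x => I x ∧ B i x) + w) +
              (M * ms W (fun x => I x ∧ B i x) + w)) := by ring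
          _ ≤ N ^ i * (N * (M * ms W (fun x => (I x ∧ B (i + 1) x) ∧ B i x) + w) +
              M * N * ms W (fun x => (I x ∧ B (i + 1) x) ∧ ¬ B i x)) := by gcongr
          _ = _ := by rw [h1]; ring
  have mono : ∀ i j, i ≤ j → ∀ x, B i x → B j x := fun i j hi x h => by
    induction hi with
    | refl => exact h
    | step _ ih => exact hB _ _ ih
  have w1 : w ≠ ∞ := (le_add_self.trans_lt (hc 0 v0)).ne_top
  have w0 : w ≠ 0 := fun h => by
    have : ms W (fun x => (I x ∧ B (0 + 1) x) ∧ ¬ B 0 x) ≤ w :=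
      ms_mono fun x h => mono _ _ v0 x h.1.2
    have h' := hc 0 v0
    rw [h, nonpos_iff_eq_zero] at this
    simp [this] at h'
  have h1 := (key _ le_rfl).trans (show _ ≤ (N ^ (N * v) * (M + 1)) * w by
    rw [mul_assoc, add_mul, one_mul]
    gcongr
    exact ms_mono fun x h => h.2)
  rw [ENNReal.mul_le_mul_iff_left w0 w1] at h1
  have h2 : (N + 1) ^ (N * v) ≤ N ^ (N * v) * (M + 1) := by exact_mod_cast h1
  have h3 := Nat.pow_le_pow_left (two_mul_pow_le hN) v
  rw [mul_pow, ← pow_mul, ← pow_mul] at h3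
  have := Nat.mul_lt_mul_of_pos_left hv (pow_pos hN (N * v))
  nlinarith

/-- Among pairwise disjoint sets one is light. -/
lemma exists_offset {W : X → ℝ≥0∞} {P : X → Prop} {T : ℕ → X → Prop} {N : ℕ} (hN : 0 < N)
    (hT : ∀ x i j, T i x → T j x → i = j) :
    ∃ o < N, N * ms W (fun x => P x ∧ T o x) ≤ ms W P := by
  obtain ⟨o, ho, h⟩ := Finset.exists_min_image (Finset.range N)
    (fun o => ms W fun x => P x ∧ T o x) ⟨0, Finset.mem_range.2 hN⟩
  refine ⟨o, Finset.mem_range.1 ho, ?_⟩
  have h1 := Finset.card_nsmul_le_sum _ _ _ h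
  rw [Finset.card_range, nsmul_eq_mul] at h1
  have h2 := ms_pack (W := W) (P := P) (T := fun o x => P x ∧ T o x) (M := 1) (fun _ _ h => h.1)
    fun x => encard_le_one_iff.2 fun i j hi hj => hT x i j hi.2 hj.2
  rw [Nat.cast_one, one_mul] at h2
  exact h1.trans ((ENNReal.sum_le_tsum _).trans h2)

lemma exists_least {P : X → Prop} (c : X → ℕ) (h : ∃ z, P z) :
    ∃ z, P z ∧ ¬ ∃ z', P z' ∧ c z' < c z :=
  let ⟨z, h1, h2⟩ := (InvImage.wf c wellFounded_lt).has_min {z | P z} h
  ⟨z, h1, fun ⟨z', h3, h4⟩ => h2 z' h3 h4⟩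

variable [MeasurableSpace X]

lemma meas_ms [MeasurableEq X] {e : ℕ → X → X} (he : ∀ i, Measurable (e i)) {W : X → ℝ≥0∞}
    (hW : Measurable W) {P : X → X → Prop} (hP : Measurable fun p : X × X => P p.1 p.2)
    (hc : ∀ x y, P x y → ∃ i, e i x = y) : Measurable fun z => ms W (P z) := by
  classical
  have key : ∀ z, ms W (P z) = ∑' k : ℕ,
      if (∀ l, l < k → ¬ e l z = e k z) ∧ P z (e k z) then W (e k z) else 0 := fun z => by
    have hinj : Function.Injective
        fun k : {k : ℕ | ∀ l, l < k → ¬ e l z = e k z} => e k.1 z := by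
      rintro ⟨a, ha⟩ ⟨b, hb⟩ hab
      rcases lt_trichotomy a b with h | h | h
      exacts [absurd hab (hb a h), Subtype.ext h, absurd hab.symm (ha b h)]
    rw [ms, ← hinj.tsum_eq fun y hy => ?_, tsum_subtype {k : ℕ | ∀ l, l < k → ¬ e l z = e k z}
      fun k => @ite _ (P z (e k z)) (Classical.propDecidable _) (W (e k z)) 0]
    · refine tsum_congr fun k => ?_
      rw [indicator_apply, ite_and]
      congr
    · have hex := hc z y (by by_contra h; simp [h] at hy)
      exact ⟨⟨Nat.find hex, fun l hl h => Nat.find_min hex hl (h.trans (Nat.find_spec hex))⟩,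
        Nat.find_spec hex⟩
  rw [funext key]
  exact Measurable.tsum fun k => Measurable.ite (measurableSet_setOfPred.2
    ((Measurable.forall fun l => measurable_const.imp (Measurable.eq (he l) (he k)).not).and
      (hP.comp (measurable_id.prodMk (he k))))) (hW.comp (he k)) measurable_const

lemma exists_cover [MeasurableEq X] {e : ℕ → X → X} (he : ∀ i, Measurable (e i)) (d : ℕ) :
    ∀ Q : X → X → Prop, (Measurable fun p : X × X => Q p.1 p.2) → (∀ x y, Q x y → ∃ i, e i x = y) →
    (∀ x, ∃ i, e i x = x) → (∀ x, {y | Q x y}.encard ≤ d) → ∃ s : Finset (X → X), s.card ≤ d ∧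
      (∀ f ∈ s, Measurable f) ∧ ∀ x y, Q x y → ∃ f ∈ s, f x = y := by
  classical
  induction d with
  | zero =>
    refine fun Q _ _ _ h => ⟨∅, le_rfl, by simp, fun x y hy => ?_⟩
    have := h x
    rw [Nat.cast_zero, nonpos_iff_eq_zero, encard_eq_zero] at this
    exact absurd (this.subset hy) (notMem_empty _)
  | succ d ih =>
    intro Q hQ hc h0 h
    obtain ⟨f, fm, hf⟩ := exists_sel he (P := fun x y => Q x y ∨ (¬ ∃ z, Q x z) ∧ x = y)
      (hQ.or (((meas_ex he hQ hc).comp measurable_fst).not.and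
        (Measurable.eq measurable_fst measurable_snd)))
      (fun x y h => h.elim (hc x y) fun h => h.2 ▸ h0 x) fun x => by
        by_cases h : ∃ z, Q x z
        exacts [h.imp fun _ => Or.inl, ⟨x, Or.inr ⟨h, rfl⟩⟩]
    obtain ⟨s, s1, s2, s3⟩ := ih (fun x y => Q x y ∧ ¬ f x = y)
      (hQ.and (Measurable.eq (fm.comp measurable_fst) measurable_snd).not)
      (fun x y h => hc x y h.1) h0 fun x => by
        rcases hf x with h' | h'
        · have := encard_sdiff_singleton_add_one (s := {y | Q x y}) h'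
          have h2 := h x
          rw [← this, Nat.cast_succ, ENat.add_le_add_iff_right ENat.one_ne_top] at h2
          refine le_trans (encard_le_encard fun y hy => ?_) h2
          exact ⟨hy.1, fun e => hy.2 (Eq.symm e)⟩
        · rw [encard_eq_zero.2 (eq_empty_of_forall_notMem fun y hy => h'.1 ⟨y, hy.1⟩)]
          exact zero_le
    refine ⟨insert f s, (Finset.card_insert_le _ _).trans (by omega), fun g hg => ?_,
      fun x y hy => ?_⟩
    · rcases Finset.mem_insert.1 hg with rfl | hg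
      exacts [fm, s2 g hg]
    · by_cases h : f x = y
      · exact ⟨f, Finset.mem_insert_self _ _, h⟩
      · exact (s3 x y ⟨hy, h⟩).imp fun g hg => ⟨Finset.mem_insert_of_mem hg.1, hg.2⟩

/-- A symmetric Borel relation with a Borel enumeration of its connected components. -/
structure Ctx (R : X → X → Prop) (e : ℕ → X → X) : Prop where
  em : ∀ i, Measurable (e i)
  rm : Measurable fun p : X × X => R p.1 p.2
  symm : ∀ x y, R x y → R y x
  cov : ∀ {n x y}, Rn R n x y → ∃ i, e i x = y

variable {R : X → X → Prop} {e : ℕ → X → X}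

lemma Ctx.mrn [MeasurableEq X] (h : Ctx R e) {W : Type*} [MeasurableSpace W] {n : W → ℕ}
    {a b : W → X} (hn : Measurable n) (ha : Measurable a) (hb : Measurable b) :
    Measurable fun w => Rn R (n w) (a w) (b w) :=
  meas_pick (F := fun k w => Rn R k (a w) (b w)) (fun k => (meas_Rn' h.em h.rm
    (fun _ b hab => h.cov ((Rn.refl 0 b).tail (h.symm _ _ hab))) k).comp (ha.prodMk hb)) hn

/-- Quantifying over a ball preserves measurability. -/
lemma Ctx.mex [MeasurableEq X] (h : Ctx R e) {W : Type*} [MeasurableSpace W] {n : W → X → ℕ}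
    {a : W → X} {P : W → X → Prop} (hn : Measurable fun p : W × X => n p.1 p.2)
    (ha : Measurable a) (hP : Measurable fun p : W × X => P p.1 p.2) :
    Measurable fun w => ∃ z, Rn R (n w z) (a w) z ∧ P w z :=
  meas_ex (e := fun i w => e i (a w)) (fun i => (h.em i).comp ha)
    ((h.mrn hn (ha.comp measurable_fst) measurable_snd).and hP) fun _ _ hz => h.cov hz.1

lemma Ctx.colour [StandardBorelSpace X] (h : Ctx R e) {n d : ℕ}
    (hd : ∀ x, {y | Rn R n x y}.encard ≤ d) :
    ∃ c : X → ℕ, Measurable c ∧ (∀ x, c x ≤ d) ∧ ∀ x y, Rn R n x y → c x = c y → x = y := by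
  obtain ⟨s, s1, s2, s3⟩ := exists_cover h.em d (Rn R n)
    (h.mrn measurable_const measurable_fst measurable_snd) (fun _ _ => h.cov)
    (fun x => h.cov (Rn.refl 0 x)) hd
  obtain ⟨c, c1, c2, c3⟩ := Ws.colour s s2 s3 fun _ _ => Rn.symm h.symm
  exact ⟨c, c1, fun x => (c2 x).trans s1, c3⟩

end Pool.Agent.P.MP_91e65d_lc.Gr
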