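import Pool.Agent.P.MP_91e65d_lc.Gr.Main

set_option autoImplicit false

namespace Pool.Agent.P.MP_91e65d_lc.Gr

open Set Filter Pool.Agent.P.MP_91e65d_lc.Tr
open scoped ENNReal

lemma young {γ c y : ℝ} (h0 : 0 < γ) (h1 : γ < 1) (hc : 0 ≤ c) (hy : 0 ≤ y) :
    c * y ^ γ ≤ γ * y + (1 - γ) * c ^ (1 - γ)⁻¹ := by
  have := Real.geom_mean_le_arith_mean2_weighted h0.le (sub_pos.2 h1).le hy
    (Real.rpow_nonneg hc (1 - γ)⁻¹) (add_sub_cancel _ _)
  rwa [Real.rpow_inv_rpow hc (sub_pos.2 h1).ne', mul_comm] at this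

lemma scale {K r s δ : ℝ} (hK : 0 ≤ K) (hr : 0 ≤ r) : (K * r ^ s) ^ δ = K ^ δ * r ^ (s * δ) := by
  rw [Real.mul_rpow hK (Real.rpow_nonneg hr _), ← Real.rpow_mul hr]

lemma exists_par {X : Type*} {R : X → X → Prop} {γ C : ℝ} (h0 : 0 < γ) (h1 : γ < (1 - γ) ^ 2)
    (h2 : γ < 1 / 2) (hC : 0 ≤ C)
    (hB : ∀ n k : ℕ, C * (n : ℝ) ^ γ ≤ k → ∀ x, {y | Rn R n x y}.encard ≤ (2 ^ k : ℕ)) :
    ∃ (N : ℕ) (θ : ℝ≥0∞) (r k α : ℕ → ℕ) (ρ c : ℕ), Par R N θ r k α ∧ 0 < ρ ∧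
      1 ≤ 2 * θ ^ (2 * ρ) ∧ ∀ i, α i + k i + 3 ≤ c * ρ ^ i := by
  have g1 : γ < 1 := by linarith
  have g2 : 0 < 1 - γ := by linarith
  set δ := (1 - γ)⁻¹ with hδ
  have d1 : 1 ≤ δ := (one_le_inv₀ g2).2 (by linarith)
  have d2 : 1 + γ * δ = δ := by rw [hδ]; field_simp; ring
  have a0 : 0 < γ * δ * δ := by positivity
  have a1 : γ * δ * δ < 1 := by
    rw [hδ, mul_assoc, ← mul_inv, ← div_eq_mul_inv, div_lt_one (by positivity)]
    nlinarith
  obtain ⟨ρ, hρ⟩ := exists_nat_gt (((385 : ℝ) ^ (γ * δ * δ)) ^ (1 - γ * δ * δ)⁻¹)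
  have ρ0 : (0 : ℝ) < ρ := lt_of_le_of_lt (by positivity) hρ
  have ρ1 : 0 < ρ := by exact_mod_cast ρ0
  have ρ2 : (1 : ℝ) ≤ ρ := by exact_mod_cast ρ1
  have ρ3 : ((2 * (192 * ρ) + 1 : ℕ) : ℝ) ^ (γ * δ * δ) ≤ ρ := by
    have := young a0 a1 (c := 385 ^ (γ * δ * δ)) (by positivity) ρ0.le
    rw [← Real.mul_rpow (by norm_num) ρ0.le] at this
    refine (Real.rpow_le_rpow (by positivity) (by push_cast; linarith) a0.le).trans
      (this.trans ?_)
    nlinarith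
  set N := 192 * ρ with hN
  let r : ℕ → ℕ := fun i => (2 * N + 1) ^ i
  have r1 : ∀ i, (1 : ℝ) ≤ r i := fun i => by exact_mod_cast Nat.one_le_pow _ _ (Nat.succ_pos _)
  have ra : ∀ i, (r i : ℝ) ^ (γ * δ * δ) ≤ ρ ^ i := fun i => by
    rw [show (r i : ℝ) = ((2 * N + 1 : ℕ) : ℝ) ^ i from Nat.cast_pow _ _,
      ← Real.rpow_pow_comm (Nat.cast_nonneg _)]
    exact pow_le_pow_left₀ (by positivity) ρ3 i
  set K₁ := (C * (2 * N) ^ γ) ^ δ
  set K₂ := (C * (2 * N * (K₁ + 5)) ^ γ) ^ δ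
  have K1 : 0 ≤ K₁ := by positivity
  have K2 : 0 ≤ K₂ := by positivity
  let k : ℕ → ℕ := fun i => ⌈K₁ * (r i : ℝ) ^ (γ * δ)⌉₊ + 2
  let α : ℕ → ℕ := fun i => ⌈K₂ * (r i : ℝ) ^ (γ * δ * δ)⌉₊
  have k1 : ∀ i, K₁ * (r i : ℝ) ^ (γ * δ) + 2 ≤ k i := fun i => by
    have := Nat.le_ceil (K₁ * (r i : ℝ) ^ (γ * δ))
    simp only [k]; push_cast; linarith
  have k2 : ∀ i, (k i : ℝ) ≤ K₁ * (r i : ℝ) ^ (γ * δ) + 3 := fun i => by
    have := Nat.ceil_lt_add_one (show 0 ≤ K₁ * (r i : ℝ) ^ (γ * δ) by positivity)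
    simp only [k]; push_cast; linarith
  have p1 : ∀ i (s : ℝ), 0 ≤ s → 1 ≤ (r i : ℝ) ^ s := fun i s => Real.one_le_rpow (r1 i)
  obtain ⟨c, hc⟩ := exists_nat_ge (K₁ + K₂ + 7)
  have t0 : (0 : ℝ) ≤ 1 - (4 * ρ + 1 : ℝ)⁻¹ := sub_nonneg.2 (inv_le_one_of_one_le₀ (by linarith))
  refine ⟨N, ENNReal.ofReal (1 - (4 * ρ + 1 : ℝ)⁻¹), r, k, α, ρ, c, ⟨by omega, ?_, rfl,
    fun i => by simp only [r]; ring, fun i => hB _ _ ?_, fun i n => hB _ _ ?_⟩, ρ1, ?_, fun i => ?_⟩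
  · rw [← ENNReal.ofReal_natCast, ← ENNReal.ofReal_ofNat, ← ENNReal.ofReal_add (by positivity)
      (by positivity), ← ENNReal.ofReal_mul t0]
    refine ENNReal.ofReal_le_ofReal (le_of_eq ?_)
    rw [hN]; push_cast; field_simp; ring
  · have := young h0 g1 (c := C * (2 * N) ^ γ * (r i : ℝ) ^ γ) (y := k i + 2) (by positivity)
      (by positivity)
    rw [scale (by positivity) (Nat.cast_nonneg _), mul_assoc, mul_assoc,
      ← Real.mul_rpow (by positivity) (by positivity),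
      ← Real.mul_rpow (by positivity) (by positivity)] at this
    push_cast
    rw [show 2 * (r i : ℝ) * (N * (k i + 2)) = 2 * N * (r i * (k i + 2)) by ring]
    have := k1 i
    change _ ≤ _ + _ * (K₁ * (r i : ℝ) ^ (γ * δ)) at *
    nlinarith
  · have e1 : 2 * (r i : ℝ) * (N * (k i + 2)) ≤ 2 * N * (K₁ + 5) * (r i : ℝ) ^ δ := by
      have := k2 i
      have := p1 i (γ * δ) (by positivity)
      rw [← d2, Real.rpow_add (by linarith [r1 i]), Real.rpow_one,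
        show 2 * (r i : ℝ) * (N * (k i + 2)) = 2 * N * r i * (k i + 2) by ring,
        show 2 * N * (K₁ + 5) * (r i * (r i : ℝ) ^ (γ * δ)) =
          2 * N * r i * ((K₁ + 5) * (r i : ℝ) ^ (γ * δ)) by ring]
      exact mul_le_mul_of_nonneg_left (by nlinarith) (by positivity)
    have e2 := young h0 g1 (c := C * (2 * N * (K₁ + 5)) ^ γ * (r i : ℝ) ^ (γ * δ)) (y := n)
      (by positivity) (by positivity)
    rw [scale (by positivity) (Nat.cast_nonneg _)] at e2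
    have e3 := Real.rpow_le_rpow (by positivity) e1 h0.le
    rw [scale (by positivity) (Nat.cast_nonneg _), mul_comm δ] at e3
    have e4 := Nat.le_ceil (K₂ * (r i : ℝ) ^ (γ * δ * δ))
    have e5 : 0 ≤ K₂ * (r i : ℝ) ^ (γ * δ * δ) := by positivity
    push_cast
    rw [Real.mul_rpow (by positivity) (by positivity)]
    calc _ = C * (2 * (r i : ℝ) * (N * (k i + 2))) ^ γ * (n : ℝ) ^ γ := by ring
      _ ≤ C * ((2 * N * (K₁ + 5)) ^ γ * (r i : ℝ) ^ (γ * δ)) * (n : ℝ) ^ γ := by gcongr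
      _ ≤ γ * n + (1 - γ) * (K₂ * (r i : ℝ) ^ (γ * δ * δ)) := by rw [← mul_assoc]; exact e2
      _ ≤ _ := by
        have : (0 : ℝ) ≤ n := Nat.cast_nonneg _
        simp only [α]
        nlinarith
  · rw [← ENNReal.ofReal_pow t0, ← ENNReal.ofReal_ofNat, ← ENNReal.ofReal_mul zero_le_two,
      ENNReal.one_le_ofReal]
    have := one_add_mul_le_pow (a := -(4 * ρ + 1 : ℝ)⁻¹) (by linarith) (2 * ρ)
    rw [← sub_eq_add_neg] at this
    have h : (4 * ρ + 1 : ℝ) * (4 * ρ + 1 : ℝ)⁻¹ = 1 := mul_inv_cancel₀ (by linarith)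
    have : (0 : ℝ) ≤ (4 * ρ + 1 : ℝ)⁻¹ := by positivity
    push_cast at *
    nlinarith
  · have e1 := Nat.ceil_lt_add_one (show 0 ≤ K₂ * (r i : ℝ) ^ (γ * δ * δ) by positivity)
    have e2 := Real.rpow_le_rpow_of_exponent_le (r1 i)
      (le_mul_of_one_le_right (show 0 ≤ γ * δ by positivity) d1)
    have e3 := p1 i _ a0.le
    have e4 := mul_le_mul hc (ra i) (by positivity) (Nat.cast_nonneg _)
    have e5 := mul_le_mul_of_nonneg_left e2 K1
    have := k2 i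
    have : (α i + k i + 3 : ℝ) ≤ c * ρ ^ i := by
      simp only [α]
      nlinarith
    exact_mod_cast this

lemma rn_iff_edist {X : Type*} (G : SimpleGraph X) (n : ℕ) (x : X) :
    ∀ y, Rn G.Adj n x y → G.edist x y ≤ n := by
  induction n with
  | zero => exact fun y h => by rw [show x = y from h, SimpleGraph.edist_self]; exact zero_le
  | succ n ih =>
    rintro y (h | ⟨z, h, h'⟩)
    · exact (ih y h).trans (by exact_mod_cast n.le_succ)
    · refine (G.edist_triangle (v := z)).trans ?_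
      rw [SimpleGraph.edist_eq_one_iff_adj.2 h', Nat.cast_succ]
      exact add_le_add_left (ih z h) _

theorem hyperfinite_of_growth {X : Type*} [MeasurableSpace X] [StandardBorelSpace X]
    (E : Setoid X) (hE : MeasurableSet {p : X × X | E p.1 p.2}) (G : SimpleGraph X)
    (hG : MeasurableSet {p : X × X | G.Adj p.1 p.2}) (hEG : ∀ x y, E x y ↔ G.Reachable x y)
    {γ C : ℝ} (h0 : 0 < γ) (h1 : γ < (3 - √5) / 2)
    (hB : ∀ x (n : ℕ), {y | G.edist x y ≤ n}.Finite ∧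
      ({y | G.edist x y ≤ n}.ncard : ℝ) ≤ Real.exp (C * (n : ℝ) ^ γ)) : Hyperfinite E := by
  have rn : ∀ x y, E x y ↔ ∃ n, Rn G.Adj n x y := fun x y => by
    rw [hEG, G.reachable_iff_reflTransGen, rtg_iff]
  have fin : ∀ n x, {y | Rn G.Adj n x y}.Finite := fun n x =>
    (hB x n).1.subset (rn_iff_edist G n x)
  obtain ⟨e, e1, -, e3⟩ := Pool.Agent.Lib.Helper36.exists_enumeration E hE fun x =>
    (countable_iUnion fun n => (fin n x).countable).mono fun y hy => mem_iUnion.2 ((rn x y).1 hy)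
  have h : Ctx G.Adj e := ⟨e1, measurableSet_setOfPred.1 hG, fun _ _ => G.adj_symm,
    fun h => e3 _ _ ((rn _ _).2 ⟨_, h⟩)⟩
  have s5 : √5 ^ 2 = 5 := Real.sq_sqrt (by norm_num)
  have s0 := Real.sqrt_nonneg 5
  obtain ⟨N, θ, r, k, α, ρ, c, p, hρ, hθ, hc⟩ := exists_par (R := G.Adj) (C := 2 * |C|) h0
    (by nlinarith) (by nlinarith) (by positivity) fun n k hk x => by
      refine (encard_le_encard (t := {y | G.edist x y ≤ n}) (rn_iff_edist G n x)).trans ?_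
      rw [← (hB x n).1.cast_ncard_eq]
      have l2 := Real.log_two_gt_d9
      have : ({y | G.edist x y ≤ n}.ncard : ℝ) ≤ 2 ^ k := (hB x n).2.trans (by
        rw [← Real.exp_log two_pos, ← Real.exp_nat_mul, Real.exp_le_exp]
        have := mul_le_mul_of_nonneg_right (le_abs_self C) (Real.rpow_nonneg n.cast_nonneg γ)
        have : (0 : ℝ) ≤ k := Nat.cast_nonneg _
        nlinarith)
      exact_mod_cast this
  obtain ⟨φ, φm, φb, φe⟩ := exists_maps h p hρ hθ hc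
  have cl : ∀ m x y, φ m x = φ m y → Rn G.Adj ((k m + 2) * r m + (k m + 2) * r m) x y :=
    fun m x y h' => (φb m x).trans (h' ▸ (φb m y).symm h.symm)
  refine ⟨fun m => Setoid.ker fun x (i : ℕ) => φ (m + i) x, fun m => ?_,
    monotone_nat_of_le_succ fun m x y h => ?_, fun m x => ?_, fun x y => ⟨fun h => ?_, ?_⟩⟩
  · simp only [Setoid.ker_def, funext_iff]
    exact measurableSet_setOfPred.2 (Measurable.forall fun i =>
      Measurable.eq ((φm _).comp measurable_fst) ((φm _).comp measurable_snd))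
  · rw [Setoid.ker_def, funext_iff] at h ⊢
    exact fun i => by simpa only [add_assoc, add_comm i 1] using h (i + 1)
  · exact (fin _ x).subset fun y hy =>
      cl m x y (congrFun (show (fun i => φ (m + i) x) = fun i => φ (m + i) y from hy) 0)
  · have : ∀ᶠ j in atTop, φ j x = φ j y := by
      rw [hEG, G.reachable_iff_reflTransGen] at h
      induction h with
      | refl => exact Eventually.of_forall fun _ => rfl
      | tail _ h ih => exact (ih.and (φe _ _ h)).mono fun j hj => hj.1.trans hj.2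
    obtain ⟨m, hm⟩ := eventually_atTop.1 this
    exact ⟨m, Setoid.ker_def.2 (funext fun i => hm _ (Nat.le_add_right _ _))⟩
  · exact fun ⟨m, h⟩ => (rn x y).2 ⟨_, cl m x y (congrFun (Setoid.ker_def.1 h) 0)⟩

end Pool.Agent.P.MP_91e65d_lc.Gr
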