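import Pool.Agent.P.MP_91e65d_lc.Gr.Step

set_option autoImplicit false

namespace Pool.Agent.P.MP_91e65d_lc.Gr

open Set Filter Pool.Agent.P.MP_91e65d_lc.Tr
open scoped ENNReal

variable {X : Type*} {R : X → X → Prop} {e : ℕ → X → X}

/-- The potential seen by the observer `a`. -/
noncomputable def pot (θ : ℝ≥0∞) (a : X → ℝ≥0∞) (s t : X → ℕ) : ℝ≥0∞ :=
  ∑' x, a x * (2 ^ s x * θ ^ t x)

open Classical in
/-- A counter is increased on a set. -/
noncomputable def inc (s : X → ℕ) (C : X → Prop) (x : X) : ℕ := s x + if C x then 1 else 0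

lemma inc_pos {s : X → ℕ} {C : X → Prop} {x : X} (h : C x) : inc s C x = s x + 1 := by
  rw [inc, if_pos h]

lemma inc_neg {s : X → ℕ} {C : X → Prop} {x : X} (h : ¬ C x) : inc s C x = s x := by
  rw [inc, if_neg h, add_zero]

lemma pot_inc {θ : ℝ≥0∞} {N : ℕ} (hN : 0 < N) (hθ : θ * (N + 48) ≤ N) {a : X → ℝ≥0∞}
    {s t : X → ℕ} {C A : X → Prop} (hC : ∀ x, C x → A x)
    (h : N * ms (fun x => a x * (2 ^ s x * θ ^ t x)) C ≤
      48 * ms (fun x => a x * (2 ^ s x * θ ^ t x)) A) :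
    pot θ a (inc s C) (inc t A) ≤ pot θ a s t := by
  set W := fun x => a x * (2 ^ s x * θ ^ t x)
  have e1 : pot θ a (inc s C) (inc t A) = ms W (fun x => ¬ A x) + θ * (ms W A + ms W C) := by
    rw [pot, ms, ms, ms, ← ENNReal.tsum_add, ← ENNReal.tsum_mul_left, ← ENNReal.tsum_add]
    refine tsum_congr fun x => ?_
    by_cases h1 : C x
    · rw [inc_pos h1, inc_pos (hC x h1)]
      simp only [h1, hC x h1, W, not_true, if_true, if_false]
      ring
    · by_cases h2 : A x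
      · rw [inc_neg h1, inc_pos h2]
        simp only [h1, h2, W, not_true, if_true, if_false]
        ring
      · rw [inc_neg h1, inc_neg h2]
        simp [h1, h2, W]
  have e2 : pot θ a s t = ms W (fun x => ¬ A x) + ms W A := by
    rw [pot, ms, ms, ← ENNReal.tsum_add]
    exact tsum_congr fun x => by by_cases h2 : A x <;> simp [h2, W]
  rw [e1, e2]
  refine add_le_add_right ?_ _
  rw [← ENNReal.mul_le_mul_iff_right (a := N) (by exact_mod_cast hN.ne') (ENNReal.natCast_ne_top N)]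
  calc _ = θ * (N * ms W A + N * ms W C) := by ring
    _ ≤ θ * (N * ms W A + 48 * ms W A) := by gcongr
    _ = θ * (N + 48) * ms W A := by ring
    _ ≤ _ := mul_le_mul_left hθ _

/-- The scales. -/
structure Par (R : X → X → Prop) (N : ℕ) (θ : ℝ≥0∞) (r k α : ℕ → ℕ) : Prop where
  N2 : 2 ≤ N
  hθ : θ * (N + 48) ≤ N
  r0 : r 0 = 1
  rs : ∀ i, r (i + 1) = r i + 2 * r i * N
  b1 : ∀ i x, {y | Rn R (2 * r i * (N * (k i + 2))) x y}.encard ≤ (2 ^ k i : ℕ)
  b2 : ∀ i n x, {y | Rn R (n * (2 * r i * (N * (k i + 2)))) x y}.encard ≤ (2 ^ (n + α i) : ℕ)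

variable {N : ℕ} {θ : ℝ≥0∞} {r k α : ℕ → ℕ}

lemma Par.r1 (p : Par R N θ r k α) : ∀ i, 1 ≤ r i
  | 0 => p.r0.ge
  | i + 1 => (p.r1 i).trans (p.rs i ▸ Nat.le_add_right _ _)

/-- The observer at a point. -/
lemma Par.obs (p : Par R N θ r k α) (hR : ∀ x y, R x y → R y x) (i : ℕ) (u : X) : ∃ a : X → ℝ≥0∞,
    Obs R (2 * r i * (N * (k i + 2))) a ∧ 1 ≤ a u ∧ ∑' x, a x ≤ 2 ^ (α i + 1) := by
  classical
  set D := 2 * r i * (N * (k i + 2))
  refine ⟨fun x => ∑' n : ℕ, if Rn R (n * D) u x then 4⁻¹ ^ n else 0, fun x y hxy => ?_,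
    le_trans ?_ (ENNReal.le_tsum 0), ?_⟩
  · refine le_trans ?_ (mul_le_mul_right (ENNReal.tsum_comp_le_tsum_of_injective
      Nat.succ_injective _) _)
    rw [← ENNReal.tsum_mul_left]
    refine ENNReal.tsum_le_tsum fun n => ?_
    split_ifs with h1 h2
    · rw [pow_succ', ← mul_assoc, ENNReal.mul_inv_cancel (by simp) (by simp), one_mul]
    · exact absurd (Nat.succ_mul n D ▸ h1.trans (hxy.symm hR)) h2
    exacts [zero_le, zero_le]
  · rw [if_pos (Rn.refl _ u), pow_zero]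
  · rw [ENNReal.tsum_comm, pow_succ]
    refine le_trans ?_ (mul_le_mul_right ENNReal.tsum_geometric_two.le _)
    rw [← ENNReal.tsum_mul_left]
    refine ENNReal.tsum_le_tsum fun n => ?_
    have e : ∀ x, (if Rn R (n * D) u x then (4⁻¹ : ℝ≥0∞) ^ n else 0) =
        {x | Rn R (n * D) u x}.indicator (fun _ => 4⁻¹ ^ n) x := fun x => by
      rw [indicator_apply]; congr
    rw [tsum_congr e, ← tsum_subtype, ENNReal.tsum_set_const]
    refine (mul_le_mul_left (show _ ≤ (2 : ℝ≥0∞) ^ (n + α i) by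
      exact_mod_cast p.b2 i n u) _).trans_eq ?_
    rw [pow_add, mul_comm (2 ^ n), mul_assoc, ← mul_pow]
    congr 2
    rw [show (4 : ℝ≥0∞) = 2 * 2 by norm_num, ENNReal.mul_inv (by simp) (by simp), ← mul_assoc,
      ENNReal.mul_inv_cancel (by simp) (by simp), one_mul]

variable [MeasurableSpace X] [StandardBorelSpace X]

omit [StandardBorelSpace X] in
lemma meas_inc {s : X → ℕ} {C : X → Prop} (hs : Measurable s) (hC : Measurable C) :
    Measurable (inc s C) :=
  hs.add (Measurable.ite (measurableSet_setOfPred.2 hC) measurable_const measurable_const)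

/-- A wall is wiggled at all lower levels. -/
lemma descend (h : Ctx R e) (p : Par R N θ r k α) {S : ℕ → X → ℕ} (hS : ∀ i, Measurable (S i))
    (j : ℕ) : ∀ (Ω : X → X → Prop) (A : X → Prop), (Measurable fun p : X × X => Ω p.1 p.2) →
    Measurable A → (∀ x, NC R (r j) Ω x → A x) → ∃ (C : ℕ → X → Prop) (Ω' : X → X → Prop),
      (∀ i, Measurable (C i)) ∧ (Measurable fun p : X × X => Ω' p.1 p.2) ∧ C j = A ∧
      (∀ i < j, ∀ a, Obs R (2 * r i * (N * (k i + 2))) a →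
        pot θ a (inc (S i) (C i)) (inc (S (i + 1)) (C (i + 1))) ≤ pot θ a (S i) (S (i + 1))) ∧
      (∀ x, NC R 1 Ω' x → C 0 x) ∧ (∀ x y, Ω x y → Ω' x y) ∧
      (∀ x y, Ω' x y → ∃ z, Rn R (r j) y z ∧ Ω x z) ∧ ∀ x x', Ω x = Ω x' → Ω' x = Ω' x' := by
  classical
  induction j with
  | zero => exact fun Ω A h1 h2 h3 => ⟨fun _ => A, Ω, fun _ => h2, h1, rfl,
      fun _ hi => absurd hi (Nat.not_lt_zero _), p.r0 ▸ h3, fun _ _ => id,
      fun _ y h => ⟨y, Rn.refl _ y, h⟩, fun _ _ => id⟩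
  | succ j ih =>
    intro Ω A h1 h2 h3
    have N0 : 0 < N := zero_lt_two.trans_le p.N2
    obtain ⟨ρ, ρm, ρb, hρ⟩ := h.step (r := r j) (v := k j + 2)
      (W := fun x => if A x then 2 ^ S j x * θ ^ S (j + 1) x else 0) N0
      (show 2 ^ k j + 1 < _ by have := Nat.one_le_two_pow (n := k j); rw [pow_add]; omega) (Nat.two_pow_pos _)
      (p.b1 j) (p.b2 j 2) (Measurable.ite (measurableSet_setOfPred.2 h2)
        (((Measurable.of_discrete (f := fun n : ℕ => (2 : ℝ≥0∞) ^ n)).comp (hS j)).mul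
          ((Measurable.of_discrete (f := fun n : ℕ => θ ^ n)).comp (hS (j + 1))))
        measurable_const) h1
    have up : ∀ x y, Ω x y → Grow R ρ Ω x y := fun x y h => ⟨y, Rn.refl _ y, h⟩
    have act : ∀ x, NC R (r j) (Grow R ρ Ω) x → A x := fun x ⟨⟨y, y1, z, z1, z2⟩, w, w1, w2⟩ =>
      h3 x ⟨⟨z, (y1.trans z1).mono (p.rs j ▸ Nat.add_le_add_left (ρb y) _), z2⟩,
        w, w1.mono (p.rs j ▸ Nat.le_add_right _ _), fun h => w2 (up _ _ h)⟩
    obtain ⟨C, Ω', c1, c2, c3, c4, c5, c6, c7, c8⟩ := ih (Grow R ρ Ω) _ (h.mgrow ρm h1)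
      (h.mnc (r j) (Ω := fun _ => Grow R ρ Ω) measurable_id (h.mgrow ρm h1)) fun _ => id
    refine ⟨Function.update C (j + 1) A, Ω', fun i => ?_, c2, Function.update_self ..,
      fun i hi a ha => ?_, by rwa [Function.update_of_ne j.succ_ne_zero.symm],
      fun x y h => c6 x y (up x y h), fun x y hy => ?_,
      fun x x' hx => c8 x x' (funext fun y => by rw [Grow, Grow, hx])⟩
    · by_cases hi : i = j + 1
      · rwa [hi, Function.update_self]
      · rw [Function.update_of_ne hi]; exact c1 i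
    · rw [Function.update_of_ne hi.ne]
      rcases Nat.lt_succ_iff_lt_or_eq.1 hi with hi | rfl
      · rw [Function.update_of_ne (by omega)]
        exact c4 i hi a ha
      · rw [Function.update_self, c3]
        refine pot_inc N0 p.hθ act (le_trans (mul_le_mul_right ?_ _)
          ((hρ a ha).trans (mul_le_mul_right (le_of_eq ?_) _)))
        · exact (ms_le (c := 1) fun x hx => ⟨hx, by rw [if_pos (act x hx), one_mul]⟩).trans_eq
            (one_mul _)
        · exact tsum_congr fun x => by by_cases h : A x <;> simp [h]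
    · obtain ⟨z, z1, w, w1, w2⟩ := c7 x y hy
      exact ⟨w, (z1.trans w1).mono (p.rs j ▸ Nat.add_le_add_left (ρb z) _), w2⟩

/-- The invariant after `b` walls of stage `j`. -/
structure Iv (R : X → X → Prop) (N : ℕ) (θ : ℝ≥0∞) (r k : ℕ → ℕ) (j b : ℕ) (S : ℕ → X → ℕ) :
    Prop where
  m : ∀ i, Measurable (S i)
  hi : ∀ i x, j < i → S i x = 0
  eq : ∀ x, S j x = b
  lo : ∀ i < j, ∀ a, Obs R (2 * r i * (N * (k i + 2))) a →
    pot θ a (S i) (S (i + 1)) ≤ 2 ^ (k i + 2) * ∑' x, a x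

lemma walls (h : Ctx R e) (p : Par R N θ r k α) {j : ℕ} {S : ℕ → X → ℕ} (hS : Iv R N θ r k j 0 S)
    {c : X → ℕ} (hc : Measurable c) (b : ℕ) : ∃ (S' : ℕ → X → ℕ) (q : X → ℕ),
      Iv R N θ r k j b S' ∧ Measurable q ∧ (∀ x, S 0 x ≤ S' 0 x) ∧
      (∀ x, ∃ z, Rn R (b * r j) x z ∧ c z % 2 ^ b = q x) ∧
      ∀ x y, R x y → S' 0 x = S 0 x → q x = q y := by
  classical
  induction b with
  | zero => exact ⟨S, fun _ => 0, hS, measurable_const, fun _ => le_rfl,
      fun x => ⟨x, Rn.refl _ x, Nat.mod_one _⟩, fun _ _ _ _ => rfl⟩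
  | succ b ih =>
    obtain ⟨T, q, iv, qm, q1, q2, q3⟩ := ih
    obtain ⟨C, Ω, c1, c2, c3, c4, c5, c6, c7, c8⟩ := descend h p iv.m j
      (fun x y => ∃ z, Rn R (b * r j) y z ∧ c z % 2 ^ (b + 1) = q x) (fun _ => True)
      (h.mex (n := fun _ _ => b * r j) (P := fun (w : X × X) z => c z % 2 ^ (b + 1) = q w.1)
        measurable_const measurable_snd (Measurable.eq
          ((Measurable.of_discrete (f := fun n : ℕ => n % 2 ^ (b + 1))).comp
            (hc.comp measurable_snd)) (qm.comp measurable_fst.fst)))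
      measurable_const fun _ _ => trivial
    have le : ∀ x, T 0 x ≤ inc (T 0) (C 0) x := fun x => Nat.le_add_right _ _
    refine ⟨fun i => if i ≤ j then inc (T i) (C i) else T i,
      fun x => if Ω x x then q x else q x + 2 ^ b, ⟨fun i => ?_, fun i x hi => ?_, fun x => ?_,
        fun i hi a ha => ?_⟩, Measurable.ite (measurableSet_setOfPred.2
          (c2.comp (measurable_id.prodMk measurable_id))) qm (qm.add_const _),
      fun x => (q1 x).trans (le x), fun x => ?_, fun x y hxy hx => ?_⟩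
    · split_ifs
      exacts [meas_inc (iv.m i) (c1 i), iv.m i]
    · rw [if_neg hi.not_ge, iv.hi i x hi]
    · rw [if_pos le_rfl, inc_pos (by rw [c3]; trivial), iv.eq]
    · rw [if_pos hi.le, if_pos (Nat.succ_le_of_lt hi)]
      exact (c4 i hi a ha).trans (iv.lo i hi a ha)
    · dsimp only
      split_ifs with hx
      · obtain ⟨y, y1, z, z1, z2⟩ := c7 x x hx
        exact ⟨z, (y1.trans z1).mono (by rw [Nat.succ_mul, add_comm]), z2⟩
      · obtain ⟨z, z1, z2⟩ := q2 x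
        refine ⟨z, z1.mono (Nat.mul_le_mul_right _ b.le_succ), ?_⟩
        have := mt (fun h => c6 x x ⟨z, z1, h⟩) hx
        rw [Nat.mod_pow_succ, z2] at this ⊢
        rcases Nat.mod_two_eq_zero_or_one (c z / 2 ^ b) with h | h <;> simp_all
    · have hx : inc (T 0) (C 0) x = S 0 x := hx
      have e1 : T 0 x = S 0 x := le_antisymm (hx ▸ le x) (q1 x)
      have e2 := q3 x y hxy e1
      have e3 := c8 x y (by rw [e2])
      have nc : ¬ NC R 1 Ω x := fun h => by rw [inc_pos (c5 x h)] at hx; omega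
      have e4 : Ω x x ↔ Ω y y := by
        rw [← e3]
        by_contra hne
        have r1 := (Rn.refl 0 x).tail hxy
        rcases not_iff.1 hne |> iff_iff_and_or_not_and_not.1 with h | h
        exacts [nc ⟨⟨y, r1, h.2⟩, x, Rn.refl _ x, h.1⟩,
          nc ⟨⟨x, Rn.refl _ x, not_not.1 h.1⟩, y, r1, h.2⟩]
      simp only [e4, e2]

lemma stage (h : Ctx R e) (p : Par R N θ r k α) {j : ℕ} {S : ℕ → X → ℕ} (hS : Iv R N θ r k j 0 S) :
    ∃ (S' : ℕ → X → ℕ) (φ : X → X), Iv R N θ r k (j + 1) 0 S' ∧ Measurable φ ∧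
      (∀ x, S 0 x ≤ S' 0 x) ∧ (∀ x, Rn R ((k j + 2) * r j) x (φ x)) ∧
      ∀ x y, R x y → S' 0 x = S 0 x → φ x = φ y := by
  obtain ⟨c, cm, cb, cp⟩ := h.colour (p.b1 j)
  obtain ⟨T, q, iv, qm, q1, q2, q3⟩ := walls h p hS cm (k j + 2)
  obtain ⟨φ, φm, hφ⟩ := exists_sel h.em
    (P := fun x z => Rn R ((k j + 2) * r j) x z ∧ c z = q x)
    ((h.mrn measurable_const measurable_fst measurable_snd).and
      (Measurable.eq (cm.comp measurable_snd) (qm.comp measurable_fst))) (fun _ _ hy => h.cov hy.1)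
    fun x => (q2 x).imp fun z hz => ⟨hz.1, by
      rw [← hz.2, Nat.mod_eq_of_lt ((cb z).trans_lt (Nat.pow_lt_pow_right one_lt_two (by omega)))]⟩
  refine ⟨T, φ, ⟨iv.m, fun i x hi => iv.hi i x (by omega), fun x => iv.hi _ x j.lt_succ_self,
    fun i hi a ha => ?_⟩, φm, q1, fun x => (hφ x).1, fun x y hxy hx => cp _ _ ?_ ?_⟩
  · rcases Nat.lt_succ_iff_lt_or_eq.1 hi with hi | rfl
    · exact iv.lo i hi a ha
    · rw [pot, ← ENNReal.tsum_mul_left]
      exact le_of_eq (tsum_congr fun x => by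
        rw [iv.eq, iv.hi _ x i.lt_succ_self, pow_zero, mul_one, mul_comm])
  · refine ((((hφ x).1.symm h.symm).tail hxy).trans (hφ y).1).mono ?_
    have := p.r1 j
    have := Nat.mul_le_mul_left (2 * r j) (Nat.mul_le_mul_right (k j + 2) p.N2)
    nlinarith
  · rw [(hφ x).2, (hφ y).2, q3 x y hxy hx]

omit [StandardBorelSpace X] in
lemma Iv.bound (h : Ctx R e) (p : Par R N θ r k α) {ρ c : ℕ} (hρ : 0 < ρ) (hθ : 1 ≤ 2 * θ ^ (2 * ρ))
    (hc : ∀ i, α i + k i + 3 ≤ c * ρ ^ i) {j : ℕ} {S : ℕ → X → ℕ} (hS : Iv R N θ r k j 0 S)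
    (u : X) : S 0 u ≤ 2 * c := by
  have key : ∀ n i, i + n = j → S i u ≤ 2 * (c * ρ ^ i) := fun n => by
    induction n with
    | zero => exact fun i hi => by rw [show i = j from hi, hS.eq]; exact Nat.zero_le _
    | succ n ih =>
      intro i hi
      obtain ⟨a, a1, a2, a3⟩ := p.obs h.symm i u
      have h1 : (2 : ℝ≥0∞) ^ S i u * θ ^ S (i + 1) u ≤ 2 ^ (c * ρ ^ i) :=
        calc _ ≤ a u * (2 ^ S i u * θ ^ S (i + 1) u) := le_mul_of_one_le_left' a2
          _ ≤ _ := (ENNReal.le_tsum u).trans (hS.lo i (by omega) a a1)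
          _ ≤ 2 ^ (k i + 2) * 2 ^ (α i + 1) := mul_le_mul_right a3 _
          _ ≤ _ := by
            rw [← pow_add]
            exact pow_le_pow_right₀ one_le_two (by have := hc i; omega)
      have h2 : (2 : ℝ≥0∞) ^ (S i u * (2 * ρ)) ≤ 2 ^ (S (i + 1) u + c * ρ ^ i * (2 * ρ)) :=
        calc _ ≤ 2 ^ (S i u * (2 * ρ)) * (2 * θ ^ (2 * ρ)) ^ S (i + 1) u :=
              le_mul_of_one_le_right' (one_le_pow_of_one_le' hθ _)
          _ = 2 ^ S (i + 1) u * (2 ^ S i u * θ ^ S (i + 1) u) ^ (2 * ρ) := by ring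
          _ ≤ 2 ^ S (i + 1) u * (2 ^ (c * ρ ^ i)) ^ (2 * ρ) := by gcongr
          _ = _ := by ring
      have h3 : 2 ^ (S i u * (2 * ρ)) ≤ 2 ^ (S (i + 1) u + c * ρ ^ i * (2 * ρ)) := by
        exact_mod_cast h2
      rw [Nat.pow_le_pow_iff_right one_lt_two] at h3
      have h4 := ih (i + 1) (by omega)
      rw [pow_succ] at h4
      refine Nat.le_of_mul_le_mul_right (c := 2 * ρ) ?_ (by omega)
      nlinarith
  simpa using key j 0 (zero_add j)

theorem exists_maps (h : Ctx R e) (p : Par R N θ r k α) {ρ c : ℕ} (hρ : 0 < ρ)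
    (hθ : 1 ≤ 2 * θ ^ (2 * ρ)) (hc : ∀ i, α i + k i + 3 ≤ c * ρ ^ i) :
    ∃ φ : ℕ → X → X, (∀ j, Measurable (φ j)) ∧ (∀ j x, Rn R ((k j + 2) * r j) x (φ j x)) ∧
      ∀ x y, R x y → ∀ᶠ j in atTop, φ j x = φ j y := by
  choose F φ f1 f2 f3 f4 f5 using fun j (S : {S // Iv R N θ r k j 0 S}) => stage h p S.2
  let S : ∀ j, {S // Iv R N θ r k j 0 S} := fun j => Nat.rec ⟨fun _ _ => 0,
    ⟨fun _ => measurable_const, fun _ _ _ => rfl, fun _ => rfl,
      fun _ hi => absurd hi (Nat.not_lt_zero _)⟩⟩ (fun j S => ⟨F j S, f1 j S⟩) j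
  refine ⟨fun j => φ j (S j), fun j => f2 _ _, fun j => f4 _ _, fun x y hxy => ?_⟩
  have mono : Monotone fun j => (S j).1 0 x := monotone_nat_of_le_succ fun j => f3 j (S j) x
  obtain ⟨b, m, hm⟩ := converges_of_monotone_of_bounded mono
    fun j => (S j).2.bound h p hρ hθ hc x
  exact eventually_atTop.2 ⟨m, fun j hj => f5 j (S j) x y hxy
    ((hm (j + 1) (by omega)).trans (hm j hj).symm)⟩

end Pool.Agent.P.MP_91e65d_lc.Gr
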