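import Pool.Agent.P.MP_91e65d_lc.Gr.Base

set_option autoImplicit false

namespace Pool.Agent.P.MP_91e65d_lc.Gr

open Set Pool.Agent.P.MP_91e65d_lc.Tr
open scoped ENNReal

variable {X : Type*} {R : X → X → Prop} {e : ℕ → X → X}

/-- The set `Ω x` cuts the ball of radius `r` around `x`. -/
def NC (R : X → X → Prop) (r : ℕ) (Ω : X → X → Prop) (x : X) : Prop :=
  (∃ y, Rn R r x y ∧ Ω x y) ∧ ∃ y, Rn R r x y ∧ ¬ Ω x y

/-- The sets `Ω x` thickened by the variable amount `ρ`. -/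
def Grow (R : X → X → Prop) (ρ : X → ℕ) (Ω : X → X → Prop) (x y : X) : Prop :=
  ∃ p, Rn R (ρ y) y p ∧ Ω x p

/-- An observer: a weight that changes slowly. -/
def Obs (R : X → X → Prop) (D : ℕ) (a : X → ℝ≥0∞) : Prop := ∀ x y, Rn R D x y → a y ≤ 4 * a x

lemma nc_unique (hR : ∀ x y, R x y → R y x) {r : ℕ} {Ω : X → X → Prop} (x : X) (i j : ℕ)
    (hi : NC R r (Grow R (fun _ => 2 * r * i) Ω) x)
    (hj : NC R r (Grow R (fun _ => 2 * r * j) Ω) x) : i = j := by
  have key : ∀ i j, NC R r (Grow R (fun _ => 2 * r * i) Ω) x →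
      NC R r (Grow R (fun _ => 2 * r * j) Ω) x → ¬ i < j :=
    fun i j ⟨⟨y, y1, p, p1, p2⟩, _⟩ ⟨_, z, z1, z2⟩ h =>
      z2 ⟨p, (((z1.symm hR).trans y1).trans p1).mono (by
        have := Nat.mul_le_mul_left (2 * r) h
        rw [Nat.mul_succ] at this
        dsimp only
        omega), p2⟩
  exact le_antisymm (not_lt.1 (key _ _ hj hi)) (not_lt.1 (key _ _ hi hj))

/-- The choice made by the centre `z`: a radius index `i` and an offset `o`. -/
def Ch (R : X → X → Prop) (r N v M : ℕ) (W : X → ℝ≥0∞) (Ω : X → X → Prop) (I : X → Prop) (z : X)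
    (i o : ℕ) : Prop :=
  i < N * v ∧ o < N ∧ M * N * ms W (fun x => (I x ∧ Rn R (2 * r * (i + 1)) z x) ∧
      (¬ Rn R (2 * r * i) z x ∨ NC R r (Grow R (fun _ => 2 * r * o) Ω) x)) ≤
    2 * M * ms W (fun x => I x ∧ Rn R (2 * r * i) z x) + ms W (Rn R (2 * r * (N * v)) z)

lemma exists_ch (hR : ∀ x y, R x y → R y x) {r N v M : ℕ} (hN : 0 < N) (hv : M + 1 < 2 ^ v)
    (W : X → ℝ≥0∞) (Ω : X → X → Prop) (I : X → Prop) (z : X) : ∃ i o, Ch R r N v M W Ω I z i o := by
  obtain ⟨i, i1, i2⟩ := exists_shell (W := W) (I := I) (B := fun i => Rn R (2 * r * i) z) hN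
    (fun i x h => h.mono (Nat.mul_le_mul_left _ i.le_succ)) hv
  obtain ⟨o, o1, o2⟩ := exists_offset (W := W) (P := fun x => I x ∧ Rn R (2 * r * i) z x) hN
    (nc_unique (r := r) (Ω := Ω) hR)
  refine ⟨i, o, i1, o1, ?_⟩
  rw [ms_split (Rn R (2 * r * i) z), mul_add, two_mul (M : ℝ≥0∞), add_mul, add_assoc]
  refine add_le_add ?_ (le_trans ?_ i2)
  · rw [mul_assoc]
    exact mul_le_mul_right (le_trans (mul_le_mul_right (ms_mono fun x h =>
      ⟨⟨h.1.1.1, h.2⟩, h.1.2.resolve_left (not_not.2 h.2)⟩) _) o2) _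
  · exact mul_le_mul_right (ms_mono fun x h => ⟨h.1.1, h.2⟩) _

variable [MeasurableSpace X] [StandardBorelSpace X]

lemma Ctx.mnc (h : Ctx R e) (r : ℕ) {W : Type*} [MeasurableSpace W] {Ω : W → X → X → Prop}
    {a : W → X} (ha : Measurable a) (hΩ : Measurable fun p : W × X => Ω p.1 (a p.1) p.2) :
    Measurable fun w => NC R r (Ω w) (a w) :=
  (h.mex (n := fun _ _ => r) measurable_const ha hΩ).and
    (h.mex (n := fun _ _ => r) measurable_const ha hΩ.not)

lemma Ctx.mgrow (h : Ctx R e) {ρ : X → ℕ} (hρ : Measurable ρ) {Ω : X → X → Prop}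
    (hΩ : Measurable fun p : X × X => Ω p.1 p.2) :
    Measurable fun p : X × X => Grow R ρ Ω p.1 p.2 :=
  h.mex (n := fun (p : X × X) _ => ρ p.2) (P := fun p z => Ω p.1 z)
    (hρ.comp (f := fun q : (X × X) × X => q.1.2) measurable_fst.snd) measurable_snd
    (hΩ.comp (f := fun q : (X × X) × X => (q.1.1, q.2)) (by fun_prop))

lemma Ctx.choice (h : Ctx R e) {r N v M : ℕ} (hN : 0 < N) (hv : M + 1 < 2 ^ v)
    {W : X → ℝ≥0∞} (hW : Measurable W) {Ω : X → X → Prop}
    (hΩ : Measurable fun p : X × X => Ω p.1 p.2) (I : {I : X → Prop // Measurable I}) :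
    ∃ i o : X → ℕ, Measurable i ∧ Measurable o ∧ ∀ z, Ch R r N v M W Ω I.1 z (i z) (o z) := by
  classical
  have ex : ∀ z, ∃ n : ℕ, Ch R r N v M W Ω I.1 z n.unpair.1 n.unpair.2 := fun z =>
    let ⟨i, o, h⟩ := exists_ch (r := r) h.symm hN hv W Ω I.1 z
    ⟨Nat.pair i o, by rwa [Nat.unpair_pair]⟩
  have rn : ∀ n, Measurable fun p : X × X => Rn R n p.1 p.2 := fun n =>
    h.mrn measurable_const measurable_fst measurable_snd
  have hI : Measurable fun p : X × X => I.1 p.2 := I.2.comp measurable_snd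
  have m : Measurable fun z => Nat.find (ex z) := meas_find ex fun n =>
    measurable_const.and (measurable_const.and (measurableSet_setOfPred.1 (measurableSet_le
      ((meas_ms h.em hW ((hI.and (rn _)).and ((rn _).not.or ((h.mnc r (W := X)
        (Ω := fun _ => Grow R (fun _ => 2 * r * n.unpair.2) Ω) measurable_id
        (h.mgrow measurable_const hΩ)).comp measurable_snd)))
          fun _ _ hy => h.cov hy.1.2).const_mul _)
      (((meas_ms h.em hW (hI.and (rn _)) fun _ _ hy => h.cov hy.2).const_mul _).add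
        (meas_ms h.em hW (rn _) fun _ _ hy => h.cov hy)))))
  exact ⟨fun z => (Nat.find (ex z)).unpair.1, fun z => (Nat.find (ex z)).unpair.2,
    (Measurable.of_discrete (f := fun n : ℕ => n.unpair.1)).comp m,
    (Measurable.of_discrete (f := fun n : ℕ => n.unpair.2)).comp m, fun z => Nat.find_spec (ex z)⟩

/-- All centres choose, in the order of their colours. -/
lemma Ctx.rounds (h : Ctx R e) {r N v M : ℕ} (hN : 0 < N) (hv : M + 1 < 2 ^ v)
    {W : X → ℝ≥0∞} (hW : Measurable W) {Ω : X → X → Prop}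
    (hΩ : Measurable fun p : X × X => Ω p.1 p.2) {c : X → ℕ} (hc : Measurable c) :
    ∃ i o : X → ℕ, Measurable i ∧ Measurable o ∧ ∀ z, Ch R r N v M W Ω
      (fun x => ¬ ∃ z', Rn R (2 * r * (i z' + 1)) x z' ∧ c z' < c z) z (i z) (o z) := by
  choose i o im om ch using h.choice (r := r) hN hv hW hΩ
  let J : ℕ → {I : X → Prop // Measurable I} := fun n => Nat.rec ⟨fun _ => True, measurable_const⟩
    (fun n I => ⟨fun x => I.1 x ∧ ¬ ∃ z, Rn R (2 * r * (i I z + 1)) x z ∧ c z = n,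
      I.2.and (h.mex (n := fun _ z => 2 * r * (i I z + 1)) (P := fun _ z => c z = n)
        ((Measurable.of_discrete (f := fun k : ℕ => 2 * r * (k + 1))).comp
          ((im I).comp measurable_snd)) measurable_id
        (Measurable.eq (hc.comp measurable_snd) measurable_const)).not⟩) n
  have hJ : ∀ n x, (J n).1 x ↔ ¬ ∃ z, Rn R (2 * r * (i (J (c z)) z + 1)) x z ∧ c z < n :=
    fun n x => by
      induction n with
      | zero => exact ⟨fun _ ⟨_, _, h⟩ => absurd h (Nat.not_lt_zero _), fun _ => trivial⟩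
      | succ n ih =>
        refine ⟨fun ⟨h1, h2⟩ ⟨z, z1, z2⟩ => ?_, fun h => ⟨ih.2 fun ⟨z, z1, z2⟩ =>
          h ⟨z, z1, z2.trans n.lt_succ_self⟩, fun ⟨z, z1, z2⟩ => h ⟨z, z2 ▸ z1, z2 ▸ n.lt_succ_self⟩⟩⟩
        rcases Nat.lt_succ_iff_lt_or_eq.1 z2 with h | h
        exacts [ih.1 h1 ⟨z, z1, h⟩, h2 ⟨z, h ▸ z1, h⟩]
  refine ⟨fun z => i (J (c z)) z, fun z => o (J (c z)) z, meas_pick (fun n => im (J n)) hc,
    meas_pick (fun n => om (J n)) hc, fun z => ?_⟩
  rw [← funext fun x => propext (hJ (c z) x)]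
  exact ch _ z

/-- One wiggle: few points, in weight, are cut afterwards, for every observer. -/
theorem Ctx.step (h : Ctx R e) {r N v M d : ℕ} (hN : 0 < N) (hv : M + 1 < 2 ^ v) (M0 : 0 < M)
    (hM : ∀ x, {y | Rn R (2 * r * (N * v)) x y}.encard ≤ M)
    (hd : ∀ x, {y | Rn R (2 * (2 * r * (N * v))) x y}.encard ≤ d)
    {W : X → ℝ≥0∞} (hW : Measurable W) {Ω : X → X → Prop}
    (hΩ : Measurable fun p : X × X => Ω p.1 p.2) :
    ∃ ρ : X → ℕ, Measurable ρ ∧ (∀ y, ρ y ≤ 2 * r * N) ∧ ∀ a, Obs R (2 * r * (N * v)) a →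
      N * ms (fun x => a x * W x) (NC R r (Grow R ρ Ω)) ≤
        48 * ms (fun x => a x * W x) fun _ => True := by
  obtain ⟨c, cm, -, cp⟩ := h.colour hd
  obtain ⟨i, o, im, om, ch⟩ := h.rounds (r := r) hN hv hW hΩ cm
  have m1 : Measurable fun z => 2 * r * i z + r :=
    (Measurable.of_discrete (f := fun k : ℕ => 2 * r * k + r)).comp im
  obtain ⟨s, sm, hs⟩ := exists_sel h.em (P := fun y z => Rn R (2 * r * i z + r) y z ∧
      ¬ ∃ z', Rn R (2 * r * i z' + r) y z' ∧ c z' < c z)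
    ((h.mrn (m1.comp measurable_snd) measurable_fst measurable_snd).and
      (h.mex (n := fun _ z => 2 * r * i z + r) (m1.comp measurable_snd) measurable_fst
        (measurableSet_setOfPred.1 (measurableSet_lt (cm.comp measurable_snd)
          (cm.comp measurable_fst.snd)))).not) (fun _ _ hy => h.cov hy.1)
    fun y => exists_least c ⟨y, Rn.refl _ y⟩
  refine ⟨fun y => 2 * r * o (s y),
    (Measurable.of_discrete (f := fun k : ℕ => 2 * r * k)).comp (om.comp sm),
    fun y => Nat.mul_le_mul_left _ (ch _).2.1.le, fun a ha => ?_⟩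
  let I : X → X → Prop := fun z x => ¬ ∃ z', Rn R (2 * r * (i z' + 1)) x z' ∧ c z' < c z
  let K : X → X → Prop := fun z x => (I z x ∧ Rn R (2 * r * (i z + 1)) z x) ∧
    (¬ Rn R (2 * r * i z) z x ∨ NC R r (Grow R (fun _ => 2 * r * o z) Ω) x)
  have big : ∀ {z x y}, Rn R (2 * r * (i z + 1)) x y → Rn R (2 * r * (N * v)) x y :=
    fun h => h.mono (Nat.mul_le_mul_left _ (ch _).1)
  have up : ∀ {z x y}, Rn R (2 * r * i z) x y → Rn R (2 * r * (i z + 1)) x y :=
    fun h => h.mono (Nat.mul_le_mul_left _ (Nat.le_succ _))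
  have uniq : ∀ {x z z'}, Rn R (2 * r * (i z + 1)) z x → Rn R (2 * r * (i z' + 1)) x z' →
      c z = c z' → z = z' := fun h1 h2 => cp _ _ (two_mul (2 * r * (N * v)) ▸ (big h1).trans (big h2))
  have cov : ∀ x, NC R r (Grow R (fun y => 2 * r * o (s y)) Ω) x → ∃ z, K z x := fun x hx => by
    obtain ⟨z, z1, z2⟩ := exists_least (P := fun z => Rn R (2 * r * (i z + 1)) x z) c
      ⟨x, Rn.refl _ x⟩
    refine ⟨z, ⟨z2, z1.symm h.symm⟩, or_iff_not_imp_left.2 fun hz => ?_⟩
    have key : ∀ y, Rn R r x y → s y = z := fun y hy => by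
      have a1 : Rn R (2 * r * (i (s y) + 1)) x (s y) :=
        (hy.trans (hs y).1).mono (by rw [mul_add]; omega)
      have a2 : Rn R (2 * r * i z + r) y z := ((not_not.1 hz).trans hy).symm h.symm
      exact (uniq (z1.symm h.symm) a1 (le_antisymm (not_lt.1 fun h => z2 ⟨_, a1, h⟩)
        (not_lt.1 fun h => (hs y).2 ⟨_, a2, h⟩))).symm
    obtain ⟨⟨y, y1, p, y2⟩, y', y3, y4⟩ := hx
    exact ⟨⟨y, y1, p, key y y1 ▸ y2⟩, y', y3, fun ⟨p, hp⟩ => y4 ⟨p, by
      simpa only [key y' y3] using hp⟩⟩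
  have loc : ∀ z, M * N * ms (fun x => a x * W x) (K z) ≤
      32 * M * ms (fun x => a x * W x) (fun x => I z x ∧ Rn R (2 * r * i z) z x) +
        16 * ms (fun x => a x * W x) (Rn R (2 * r * (N * v)) z) := fun z => by
    have dn : ∀ P : X → Prop, (∀ x, P x → Rn R (2 * r * (N * v)) z x) →
        a z * ms W P ≤ 4 * ms (fun x => a x * W x) P := fun P hP => by
      rw [← ms_mul]
      exact ms_le fun x hx => ⟨hx, (mul_le_mul_left (ha x z ((hP x hx).symm h.symm)) _).trans_eq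
        (mul_assoc _ _ _)⟩
    calc _ ≤ M * N * (4 * a z * ms W (K z)) :=
          mul_le_mul_right (ms_le fun x hx => ⟨hx, mul_le_mul_left (ha z x (big hx.1.2)) _⟩) _
      _ = 4 * a z * (M * N * ms W (K z)) := by ring
      _ ≤ 4 * a z * _ := mul_le_mul_right (ch z).2.2 _
      _ = 8 * M * (a z * ms W fun x => I z x ∧ Rn R (2 * r * i z) z x) +
          4 * (a z * ms W (Rn R (2 * r * (N * v)) z)) := by ring
      _ ≤ 8 * M * (4 * _) + 4 * (4 * _) := add_le_add
          (mul_le_mul_right (dn _ fun x hx => big (up hx.2)) _) (mul_le_mul_right (dn _ fun _ => id) _)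
      _ = _ := by ring
  have p1 := ms_pack (W := fun x => a x * W x) (P := fun _ => True)
    (T := fun z x => I z x ∧ Rn R (2 * r * i z) z x) (M := 1) (fun _ _ _ => trivial)
    fun x => encard_le_one_iff.2 fun z z' hz hz' => uniq (up hz.2) ((up hz'.2).symm h.symm)
      (le_antisymm (not_lt.1 fun h' => hz.1 ⟨_, (up hz'.2).symm h.symm, h'⟩)
        (not_lt.1 fun h' => hz'.1 ⟨_, (up hz.2).symm h.symm, h'⟩))
  have p2 := ms_pack (W := fun x => a x * W x) (P := fun _ => True)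
    (T := fun z => Rn R (2 * r * (N * v)) z) (M := M) (fun _ _ _ => trivial)
    fun x => le_trans (encard_le_encard fun z hz => Rn.symm h.symm hz) (hM x)
  rw [← ENNReal.mul_le_mul_iff_right (a := M) (by exact_mod_cast M0.ne') (ENNReal.natCast_ne_top M)]
  calc _ = M * N * ms (fun x => a x * W x) (NC R r (Grow R (fun y => 2 * r * o (s y)) Ω)) := by ring
    _ ≤ M * N * ∑' z, ms (fun x => a x * W x) (K z) := mul_le_mul_right (ms_cover cov) _
    _ ≤ _ := by
      rw [← ENNReal.tsum_mul_left]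
      refine (ENNReal.tsum_le_tsum loc).trans ?_
      rw [ENNReal.tsum_add, ENNReal.tsum_mul_left, ENNReal.tsum_mul_left]
      refine (add_le_add (mul_le_mul_right p1 _) (mul_le_mul_right p2 _)).trans_eq ?_
      push_cast
      ring

end Pool.Agent.P.MP_91e65d_lc.Gr
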